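import Pool.Agent.Lib.MP_bc6f6d_pr.Explore

set_option autoImplicit false
set_option linter.unusedSectionVars false

namespace Pool.Agent.Lib.MP_bc6f6d_pr

open MeasureTheory ProbabilityTheory Set Function
open scoped NNReal ENNReal

section General

variable {ι X : Type} [DecidableEq ι] [MeasurableSpace X]

theorem lint_eq_lmarg (μ : ι → Measure X) [∀ i, IsProbabilityMeasure (μ i)] {s : Finset ι}
    {f : (ι → X) → ℝ≥0∞} (hf : Measurable f) (hd : DependsOn f s) (x : ι → X) :
    ∫⁻ y, f y ∂Measure.infinitePi μ = (∫⋯∫⁻_s, f ∂μ) x := by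
  let g : (s → X) → ℝ≥0∞ := fun y => f (updateFinset x s y)
  have e : ∀ y, g (s.restrict y) = f y := fun y => hd fun i hi => by
    simp only [updateFinset]
    rw [dif_pos (show i ∈ s from hi)]
    rfl
  rw [← lintegral_congr e, lintegral_restrict_infinitePi μ (f := g) (hf.comp measurable_updateFinset)]
  rfl

theorem lmarg_le_one (μ : ι → Measure X) [∀ i, IsProbabilityMeasure (μ i)] (s : Finset ι)
    {f : (ι → X) → ℝ≥0∞} (h1 : ∀ y, f y ≤ 1) (x : ι → X) : (∫⋯∫⁻_s, f ∂μ) x ≤ 1 :=
  lintegral_le_const (Filter.Eventually.of_forall fun _ => h1 _)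

theorem lmarg_monotone [Preorder X] (μ : ι → Measure X) (s : Finset ι)
    {f : (ι → X) → ℝ≥0∞} (hm : Monotone f) : Monotone (∫⋯∫⁻_s, f ∂μ) := by
  intro a b hab
  refine lintegral_mono fun y => hm fun i => ?_
  simp only [updateFinset]
  split_ifs
  · exact le_rfl
  · exact hab i

theorem prod_dom [Preorder X] (μ ν : ι → Measure X) [∀ i, IsProbabilityMeasure (μ i)]
    [∀ i, IsProbabilityMeasure (ν i)]
    (h : ∀ i (g : X → ℝ≥0∞), Monotone g → Measurable g → (∀ y, g y ≤ 1) →
      ∫⁻ y, g y ∂μ i ≤ ∫⁻ y, g y ∂ν i)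
    {f : (ι → X) → ℝ≥0∞} (hm : Monotone f) (hf : Measurable f) (h1 : ∀ y, f y ≤ 1)
    (s : Finset ι) : ∀ x, (∫⋯∫⁻_s, f ∂μ) x ≤ (∫⋯∫⁻_s, f ∂ν) x := by
  induction s using Finset.induction_on with
  | empty => simp
  | insert i s hi ih =>
    intro x
    rw [lmarginal_insert _ hf hi, lmarginal_insert _ hf hi]
    refine (lintegral_mono fun y => ih _).trans (h i _ ?_ ?_ fun y => lmarg_le_one ν s h1 _)
    · exact fun a b hab => lmarg_monotone ν s hm (update_mono hab)
    · exact (hf.lmarginal ν).comp (measurable_update x)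

end General

theorem lint_ber (p : unitInterval) (f : Prop → ℝ≥0∞) :
    ∫⁻ z, f z ∂bernoulliMeasure True False p =
      ENNReal.ofReal p * f True + ENNReal.ofReal (1 - p) * f False := by
  rw [bernoulliMeasure_def, lintegral_add_measure, lintegral_smul_measure, lintegral_smul_measure,
    lintegral_dirac, lintegral_dirac]
  congr 1
  · rw [ENNReal.smul_def, smul_eq_mul, ← ENNReal.ofReal_coe_nnreal]; rfl
  · rw [ENNReal.smul_def, smul_eq_mul, ← ENNReal.ofReal_coe_nnreal]; rfl

section Vertex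

variable {V : Type} [DecidableEq V]

/-- finite-dimensional expectation of `g` under independent coins. -/
noncomputable def Fx (β : V → unitInterval) (t : Finset V) (g : (V → Prop) → ℝ≥0∞)
    (a : V → Prop) : ℝ :=
  ((∫⋯∫⁻_t, g ∂fun y => bernoulliMeasure True False (β y)) a).toReal

variable {g : (V → Prop) → ℝ≥0∞}

theorem Fx_insert (β : V → unitInterval) {t : Finset V} {k : V} (hk : k ∉ t) (hg : Measurable g)
    (h1 : ∀ y, g y ≤ 1) (a : V → Prop) : Fx β (insert k t) g a =
      β k * Fx β t g (update a k True) + (1 - β k) * Fx β t g (update a k False) := by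
  unfold Fx
  have hf : ∀ b, (∫⋯∫⁻_t, g ∂fun y => bernoulliMeasure True False (β y)) b ≠ ⊤ := fun b =>
    ne_top_of_le_ne_top ENNReal.one_ne_top (lmarg_le_one _ t h1 b)
  rw [lmarginal_insert _ hg hk, lint_ber, ENNReal.toReal_add
    (ENNReal.mul_ne_top ENNReal.ofReal_ne_top (hf _))
    (ENNReal.mul_ne_top ENNReal.ofReal_ne_top (hf _)), ENNReal.toReal_mul, ENNReal.toReal_mul,
    ENNReal.toReal_ofReal (β k).2.1, ENNReal.toReal_ofReal (sub_nonneg.2 (β k).2.2)]

theorem Fx_mono (β : V → unitInterval) (t : Finset V) (hm : Monotone g) (h1 : ∀ y, g y ≤ 1)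
    {a b : V → Prop} (hab : a ≤ b) : Fx β t g a ≤ Fx β t g b :=
  ENNReal.toReal_mono (ne_top_of_le_ne_top ENNReal.one_ne_top (lmarg_le_one _ t h1 b))
    (lmarg_monotone _ t hm hab)

theorem Fx_le {β α : V → unitInterval} (hβ : ∀ y, (β y : ℝ) ≤ α y) (hm : Monotone g)
    (hg : Measurable g) (h1 : ∀ y, g y ≤ 1) (t : Finset V) : ∀ a, Fx β t g a ≤ Fx α t g a := by
  induction t using Finset.induction_on with
  | empty => intro a; simp [Fx]
  | insert k t hk ih =>
    intro a
    rw [Fx_insert β hk hg h1, Fx_insert α hk hg h1]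
    have a1 := ih (update a k True)
    have a2 := ih (update a k False)
    have a3 : Fx α t g (update a k False) ≤ Fx α t g (update a k True) :=
      Fx_mono α t hm h1 (update_mono fun h => h.elim)
    have a4 := mul_le_mul_of_nonneg_left a1 (β k).2.1
    have a5 := mul_le_mul_of_nonneg_left a2 (sub_nonneg.2 (β k).2.2)
    nlinarith [hβ k]

theorem Fx_dilute {β α : V → unitInterval} {c : ℝ} (hc : 0 ≤ c)
    (hβ : ∀ y, (β y : ℝ) ≤ (1 - c) * α y) (hβ1 : ∀ y, (β y : ℝ) < 1) (hm : Monotone g)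
    (hg : Measurable g) (h1 : ∀ y, g y ≤ 1) (t : Finset V) :
    ∀ (a : V → Prop) (δ : ℝ), (∀ k ∈ t, ¬a k) → δ ≤ c * ∏ y ∈ t, (1 - (β y : ℝ)) →
      Fx β t g a ≤ δ * (g a).toReal + (1 - δ) * Fx α t g a := by
  have hβα : ∀ y, (β y : ℝ) ≤ α y := fun y => (hβ y).trans (by nlinarith [(α y).2.1])
  induction t using Finset.induction_on with
  | empty => intro a δ _ _; simp only [Fx, lmarginal_empty]; linarith
  | insert k t hk ih =>
    intro a δ ha hδ
    have e : update a k False = a := by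
      rw [update_eq_self_iff]
      exact (eq_false (ha k (Finset.mem_insert_self _ _))).symm
    rw [Fx_insert β hk hg h1, Fx_insert α hk hg h1, e]
    rw [Finset.prod_insert hk] at hδ
    have hb : 0 < 1 - (β k : ℝ) := sub_pos.2 (hβ1 k)
    have hp : ∏ y ∈ t, (1 - (β y : ℝ)) ≤ 1 :=
      Finset.prod_le_one (fun y _ => (sub_pos.2 (hβ1 y)).le) fun y _ => by linarith [(β y).2.1]
    have hp0 : 0 ≤ ∏ y ∈ t, (1 - (β y : ℝ)) :=
      Finset.prod_nonneg fun y _ => (sub_pos.2 (hβ1 y)).le
    have hδc : δ ≤ c := by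
      refine hδ.trans (mul_le_of_le_one_right hc ?_)
      exact mul_le_one₀ (by linarith [(β k).2.1]) hp0 hp
    have a2 := ih a (δ / (1 - β k)) (fun j hj => ha j (Finset.mem_insert_of_mem hj))
      (by rw [div_le_iff₀ hb]; linarith)
    have a1 := Fx_le hβα hm hg h1 t (update a k True)
    have a3 : Fx α t g a ≤ Fx α t g (update a k True) := by
      conv_lhs => rw [← e]
      exact Fx_mono α t hm h1 (update_mono fun h => h.elim)
    have a4 := mul_le_mul_of_nonneg_left a1 (β k).2.1
    have a5 := mul_le_mul_of_nonneg_left a2 hb.le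
    have a6 : (1 - (β k : ℝ)) * (δ / (1 - β k) * (g a).toReal + (1 - δ / (1 - β k)) * Fx α t g a)
        = δ * (g a).toReal + (1 - β k - δ) * Fx α t g a := by field_simp
    have a7 : (β k : ℝ) ≤ (1 - δ) * α k := (hβ k).trans (by nlinarith [(α k).2.1])
    nlinarith

end Vertex

section Dir

variable {V : Type}

instance {ι : Type} (p : ι → unitInterval) : IsProbabilityMeasure (coins p) := by
  unfold coins; infer_instance

theorem meas_and : Measurable fun (p : Prop × (V → Prop)) (y : V) => p.1 ∧ p.2 y := by fun_prop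

/-- the law of the set of out-neighbours of a vertex. -/
noncomputable def nu (α : V → unitInterval) (σ : unitInterval) : Measure (V → Prop) :=
  ((bernoulliMeasure True False σ).prod (coins α)).map fun p y => p.1 ∧ p.2 y

instance (α : V → unitInterval) (σ : unitInterval) : IsProbabilityMeasure (nu α σ) :=
  Measure.isProbabilityMeasure_map meas_and.aemeasurable

theorem lint_nu (α : V → unitInterval) (σ : unitInterval) {g : (V → Prop) → ℝ≥0∞}
    (hg : Measurable g) : ∫⁻ a, g a ∂nu α σ =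
      ENNReal.ofReal σ * ∫⁻ a, g a ∂coins α + ENNReal.ofReal (1 - σ) * g fun _ => False := by
  rw [nu, lintegral_map hg meas_and, lintegral_prod (fun p : Prop × (V → Prop) => g fun y => p.1 ∧ p.2 y)
    (hg.comp meas_and).aemeasurable, lint_ber]
  simp

theorem vertex_dom {β α : V → unitInterval} {σ : unitInterval} {c : ℝ} (hc : 0 ≤ c)
    (hβ : ∀ y, (β y : ℝ) ≤ (1 - c) * α y) (hβ1 : ∀ y, (β y : ℝ) < 1) (t : Finset V)
    (hσ : 1 - (σ : ℝ) ≤ c * ∏ y ∈ t, (1 - (β y : ℝ))) {g : (V → Prop) → ℝ≥0∞} (hm : Monotone g)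
    (hg : Measurable g) (h1 : ∀ y, g y ≤ 1) (hd : DependsOn g t) :
    ∫⁻ a, g a ∂nu β 1 ≤ ∫⁻ a, g a ∂nu α σ := by
  classical
  have key := Fx_dilute hc hβ hβ1 hm hg h1 t (fun _ => False) (1 - σ) (fun _ _ h => h) hσ
  rw [lint_nu _ _ hg, lint_nu _ _ hg, coins, coins, lint_eq_lmarg _ hg hd fun _ => False,
    lint_eq_lmarg _ hg hd fun _ => False]
  have hf : ∀ γ : V → unitInterval, (∫⋯∫⁻_t, g ∂fun y => bernoulliMeasure True False (γ y))
      (fun _ => False) = ENNReal.ofReal (Fx γ t g fun _ => False) := fun γ =>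
    (ENNReal.ofReal_toReal
      (ne_top_of_le_ne_top ENNReal.one_ne_top (lmarg_le_one _ t h1 _))).symm
  rw [hf, hf, ← ENNReal.ofReal_toReal (ne_top_of_le_ne_top ENNReal.one_ne_top (h1 fun _ => False)),
    ← ENNReal.ofReal_mul σ.2.1, ← ENNReal.ofReal_mul (sub_nonneg.2 σ.2.2),
    ← ENNReal.ofReal_add (mul_nonneg σ.2.1 (show 0 ≤ Fx α t g _ from ENNReal.toReal_nonneg))
      (mul_nonneg (sub_nonneg.2 σ.2.2) ENNReal.toReal_nonneg)]
  simp only [Set.Icc.coe_one, ENNReal.ofReal_one, one_mul, sub_self, ENNReal.ofReal_zero, zero_mul,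
    add_zero]
  apply ENNReal.ofReal_le_ofReal
  linarith

theorem rtg_mono {r r' : V → V → Prop} {a b : V} (h : Relation.ReflTransGen r a b)
    (hr : ∀ x y, r x y → r' x y) : Relation.ReflTransGen r' a b := by
  induction h with
  | refl => exact .refl
  | tail _ h2 ih => exact ih.tail (hr _ _ h2)

variable [Countable V]

theorem meas_reach {Ω : Type} [MeasurableSpace Ω] {r : Ω → V → V → Prop}
    (hr : ∀ x y, Measurable fun ω => r ω x y) (o y : V) :
    Measurable fun ω => Relation.ReflTransGen (r ω) o y := by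
  simp only [reach_iff]
  exact Measurable.exists fun n => meas_lev (c := fun ω _ => r ω) (fun _ => hr) o n y

theorem inf_iff {S : Set V} : S.Infinite ↔ ∀ Λ : Finset V, ∃ y ∉ Λ, y ∈ S := by
  constructor
  · intro h Λ
    obtain ⟨y, h1, h2⟩ := h.exists_notMem_finset Λ
    exact ⟨y, h2, h1⟩
  · intro h hf
    obtain ⟨y, h1, h2⟩ := h hf.toFinset
    exact h1 (hf.mem_toFinset.2 h2)

theorem meas_inf {Ω : Type} [MeasurableSpace Ω] {r : Ω → V → V → Prop}
    (hr : ∀ x y, Measurable fun ω => r ω x y) (o : V) :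
    MeasurableSet {ω | {y | Relation.ReflTransGen (r ω) o y}.Infinite} := by
  simp only [inf_iff]
  exact measurableSet_setOfPred.2 (Measurable.forall fun Λ => Measurable.exists fun y =>
    measurable_const.and (meas_reach hr o y))

/-- exit event for the model restricted to a finite set. -/
def Ex (o : V) (Λ t : Finset V) : Set (V → V → Prop) :=
  {N | ∃ y ∉ Λ, Relation.ReflTransGen (fun a b => a ∈ t ∧ b ∈ t ∧ N a b) o y}

theorem prob_inf (P : Measure (V → V → Prop)) [IsProbabilityMeasure P] (o : V) :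
    P {N | {y | Relation.ReflTransGen N o y}.Infinite} = ⨅ Λ, ⨆ t, P (Ex o Λ t) := by
  classical
  have hmono : ∀ Λ, Monotone (Ex o Λ) := fun Λ t t' h N ⟨y, h1, h2⟩ =>
    ⟨y, h1, rtg_mono h2 fun a b hab => ⟨h hab.1, h hab.2.1, hab.2.2⟩⟩
  have e : ∀ Λ, ⋃ t, Ex o Λ t = {N | ∃ y ∉ Λ, Relation.ReflTransGen N o y} := by
    intro Λ
    ext N
    simp only [mem_iUnion, Ex, mem_ofPred_eq]
    constructor
    · rintro ⟨t, y, h1, h2⟩
      exact ⟨y, h1, rtg_mono h2 fun a b hab => hab.2.2⟩
    · rintro ⟨y, h1, h2⟩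
      suffices ∃ t : Finset V, Relation.ReflTransGen (fun a b => a ∈ t ∧ b ∈ t ∧ N a b) o y from
        this.imp fun t ht => ⟨y, h1, ht⟩
      clear h1
      induction h2 with
      | refl => exact ⟨∅, .refl⟩
      | @tail b z _ hbz ih =>
        obtain ⟨t, ht⟩ := ih
        refine ⟨insert b (insert z t), .tail (rtg_mono ht fun a b hab => ⟨?_, ?_, hab.2.2⟩)
          ⟨by simp, by simp, hbz⟩⟩
        · simp [hab.1]
        · simp [hab.2.1]
  have e1 : {N : V → V → Prop | {y | Relation.ReflTransGen N o y}.Infinite} =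
      ⋂ Λ : Finset V, ⋃ t, Ex o Λ t := by
    ext N
    simp only [e, inf_iff, mem_iInter, mem_ofPred_eq]
  rw [e1, Antitone.measure_iInter]
  · exact iInf_congr fun Λ => (hmono Λ).measure_iUnion
  · intro Λ Λ' h N
    simp only [e]
    rintro ⟨y, h1, h2⟩
    exact ⟨y, fun h3 => h1 (h h3), h2⟩
  · intro Λ
    rw [e]
    exact (measurableSet_setOfPred.2 (Measurable.exists fun y => measurable_const.and
      (meas_reach (r := fun N : V → V → Prop => N) (by fun_prop) o y))).nullMeasurableSet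
  · exact ⟨∅, measure_ne_top _ _⟩

theorem inf_le {β α : V → V → unitInterval} {σ : unitInterval} {c : ℝ} (hc : 0 ≤ c)
    (hβ : ∀ x y, (β x y : ℝ) ≤ (1 - c) * α x y) (hβ1 : ∀ x y, (β x y : ℝ) < 1)
    (hσ : ∀ x (t : Finset V), 1 - (σ : ℝ) ≤ c * ∏ y ∈ t, (1 - (β x y : ℝ))) (o : V) :
    Measure.infinitePi (fun x => nu (β x) 1) {N | {y | Relation.ReflTransGen N o y}.Infinite} ≤
      Measure.infinitePi (fun x => nu (α x) σ)
        {N | {y | Relation.ReflTransGen N o y}.Infinite} := by
  classical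
  rw [prob_inf, prob_inf]
  refine iInf_mono fun Λ => iSup_mono fun t => ?_
  set r : (V → Prop) → V → Prop := fun a y => y ∈ t ∧ a y with hr
  have hrm : Measurable r := by rw [hr]; fun_prop
  set E : Set (V → V → Prop) :=
    {N | ∃ y ∉ Λ, Relation.ReflTransGen (fun a b => a ∈ t ∧ N a b) o y} with hE
  have hEm : MeasurableSet E := measurableSet_setOfPred.2 (Measurable.exists fun y =>
    measurable_const.and (meas_reach (r := fun (N : V → V → Prop) a b => a ∈ t ∧ N a b)
      (by fun_prop) o y))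
  have hprob : ∀ (μ : Measure (V → Prop)) [IsProbabilityMeasure μ],
      IsProbabilityMeasure (μ.map r) := fun μ _ => Measure.isProbabilityMeasure_map hrm.aemeasurable
  have hd : DependsOn (E.indicator (1 : (V → V → Prop) → ℝ≥0∞)) t := by
    intro N N' h
    have : (fun a b => a ∈ t ∧ N a b) = fun a b => a ∈ t ∧ N' a b := by
      ext a b
      exact and_congr_right fun ha => by rw [h a ha]
    have h2 : N ∈ E ↔ N' ∈ E := by simp only [hE, mem_ofPred_eq, this]
    by_cases h3 : N ∈ E
    · rw [indicator_of_mem h3, indicator_of_mem (h2.1 h3)]; rfl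
    · rw [indicator_of_notMem h3, indicator_of_notMem fun h4 => h3 (h2.2 h4)]
  have e : ∀ (μ : V → Measure (V → Prop)) [∀ x, IsProbabilityMeasure (μ x)],
      Measure.infinitePi μ (Ex o Λ t) =
        (∫⋯∫⁻_t, E.indicator 1 ∂fun x => (μ x).map r) fun _ _ => False := by
    intro μ _
    have := fun x => hprob (μ x)
    rw [← lint_eq_lmarg _ (measurable_one.indicator hEm) hd, lintegral_indicator_one hEm,
      ← Measure.infinitePi_map_pi μ fun _ => hrm, Measure.map_apply (by fun_prop) hEm]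
    rfl
  rw [e, e]
  have := fun x => hprob (nu (β x) 1)
  have := fun x => hprob (nu (α x) σ)
  refine prod_dom _ _ (fun x g hm hg h1 => ?_) ?_ (measurable_one.indicator hEm)
    (fun N => indicator_le_self' (fun _ _ => zero_le_one) N) t _
  · rw [lintegral_map hg hrm, lintegral_map hg hrm]
    refine vertex_dom hc (hβ x) (hβ1 x) t (hσ x t) (g := fun a => g (r a))
      (fun a b hab => hm fun y hy => ⟨hy.1, hab y hy.2⟩) (hg.comp hrm) (fun _ => h1 _) ?_
    intro a b hab
    have : r a = r b := by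
      funext y
      exact propext (and_congr_right fun hy => by rw [hab y hy])
    exact congrArg g this
  · intro N N' h
    by_cases h3 : N ∈ E
    · obtain ⟨y, h1, h2⟩ := h3
      have h4 : N' ∈ E := ⟨y, h1, rtg_mono h2 fun a b hab => ⟨hab.1, h a b hab.2⟩⟩
      rw [indicator_of_mem h4]
      exact indicator_le_self' (fun _ _ => zero_le_one) N
    · rw [indicator_of_notMem h3]
      exact zero_le

end Dir

end Pool.Agent.Lib.MP_bc6f6d_pr
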