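import Mathlib

/-!
Graphical construction of the contact process on dynamical long-range percolation.
-/

set_option autoImplicit false

namespace Pool.Agent.Lib.MP_bc6f6d_pr

open MeasureTheory ProbabilityTheory
open scoped NNReal ENNReal

/-- The randomness of a Poisson process in a unit time interval: a number of points and a
sequence of positions. -/
abbrev Cell : Type := ℕ × (ℕ → unitInterval)

/-- Poisson number of points with mean `r`, independent uniform positions. -/
noncomputable def cellLaw (r : ℝ≥0) : Measure Cell :=
  (poissonMeasure r).prod (Measure.infinitePi fun _ => volume)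

/-- A Poisson process of rate `r` on `[0, ∞)`: independent cells, cell `k` for `[k, k + 1]`. -/
noncomputable def ppLaw (r : ℝ≥0) : Measure (ℕ → Cell) := Measure.infinitePi fun _ => cellLaw r

/-- `j = (k, i)` labels a point of the process `c` at time `t`: the `i`-th point of cell `k`. -/
def Pt (c : ℕ → Cell) (j : ℕ × ℕ) (t : ℝ) : Prop :=
  j.2 < (c j.1).1 ∧ t = (j.1 : ℝ) + ((c j.1).2 j.2 : ℝ)

/-- The process `c` has no point in `(s, t]`. -/
def NoPt (c : ℕ → Cell) (s t : ℝ) : Prop := ∀ j r, Pt c j r → ¬(s < r ∧ r ≤ t)

/-- Independent coin flips, the one with label `i` being `True` with probability `p i`. -/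
noncomputable def coins {ι : Type} (p : ι → unitInterval) : Measure (ι → Prop) :=
  Measure.infinitePi fun i => bernoulliMeasure True False (p i)

/-- The randomness of an edge: update times, infection times, and the coins giving the initial
state (label `none`) and the new state at each update (label `some j`). -/
abbrev EdgeData : Type := ((ℕ → Cell) × (ℕ → Cell)) × (Option (ℕ × ℕ) → Prop)

/-- Updates at rate `v`, infection events at rate `lam`, coins with success probability `p`. -/
noncomputable def edgeLaw (v lam : ℝ≥0) (p : unitInterval) : Measure EdgeData :=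
  ((ppLaw v).prod (ppLaw lam)).prod (coins fun _ => p)

/-- The edge is open at time `t`: its state is the coin of the last update in `(0, t]`, or the
initial coin if there is no such update. -/
def IsOpenAt (w : EdgeData) (t : ℝ) : Prop :=
  (NoPt w.1.1 0 t ∧ w.2 none) ∨
    ∃ j s, Pt w.1.1 j s ∧ 0 < s ∧ s ≤ t ∧ NoPt w.1.1 s t ∧ w.2 (some j)

/-- All the randomness: edge data for every unordered pair, recovery times for every vertex. -/
abbrev Omega (V : Type) : Type := (Sym2 V → EdgeData) × (V → ℕ → Cell)

/-- `Infected ω x y t`: starting from the single infected vertex `x` at time `0`, the vertex `y`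
is infected at time `t`. -/
inductive Infected {V : Type} (ω : Omega V) (x : V) : V → ℝ → Prop
  | start : Infected ω x x 0
  | wait (y : V) (s t : ℝ) : Infected ω x y s → s ≤ t → NoPt (ω.2 y) s t → Infected ω x y t
  | jump (y z : V) (t : ℝ) : Infected ω x y t → y ≠ z → (∃ j, Pt (ω.1 s(y, z)).1.2 j t) →
      IsOpenAt (ω.1 s(y, z)) t → Infected ω x z t

/-- The graph distance between the two ends of an unordered pair. -/
noncomputable def len {V : Type} (G : SimpleGraph V) : Sym2 V → ℕ :=
  Sym2.lift ⟨G.dist, fun _ _ => G.dist_comm⟩

/-- The law of the graphical construction: independent edges with update rate `γ v_e`, open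
probability `q p_e` and infection rate `lam`, independent recoveries at rate `1`. -/
noncomputable def law {V : Type} (G : SimpleGraph V) (p : ℕ → unitInterval) (v : ℕ → ℝ≥0)
    (lam γ : ℝ≥0) (q : unitInterval) : Measure (Omega V) :=
  (Measure.infinitePi fun e => edgeLaw (γ * v (len G e)) lam (q * p (len G e))).prod
    (Measure.infinitePi fun _ => ppLaw 1)

/-- The survival probability. -/
noncomputable def theta {V : Type} (G : SimpleGraph V) (p : ℕ → unitInterval) (v : ℕ → ℝ≥0)
    (x : V) (lam γ : ℝ≥0) (q : unitInterval) : ℝ≥0∞ :=
  law G p v lam γ q {ω | ∀ t : ℝ, 0 ≤ t → ∃ y, Infected ω x y t}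

/-- The critical infection rate. -/
noncomputable def lamC {V : Type} (G : SimpleGraph V) (p : ℕ → unitInterval) (v : ℕ → ℝ≥0)
    (x : V) (γ : ℝ≥0) (q : unitInterval) : ℝ≥0∞ :=
  ⨅ (lam : ℝ≥0) (_ : 0 < theta G p v x lam γ q), (lam : ℝ≥0∞)

/-- The static long-range percolation induced by `(q p_e)` has an infinite connected component
almost surely. -/
def Percolates {V : Type} (G : SimpleGraph V) (p : ℕ → unitInterval) (q : unitInterval) : Prop :=
  ∀ᵐ a ∂(coins fun e : Sym2 V => q * p (len G e)),
    ∃ x, {y | (SimpleGraph.fromEdgeSet {e | a e}).Reachable x y}.Infinite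

end Pool.Agent.Lib.MP_bc6f6d_pr
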