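import Pool.Agent.Lib.MP_bc6f6d_pr.Defs

set_option autoImplicit false
set_option linter.unusedSectionVars false

namespace Pool.Agent.Lib.MP_bc6f6d_pr

open MeasureTheory ProbabilityTheory Set
open scoped NNReal ENNReal

variable {V : Type}

/-- breadth-first exploration: the frontier and the visited set. -/
def vis (c : ℕ → V → V → Prop) (o : V) : ℕ → Set V × Set V
  | 0 => ({o}, {o})
  | n + 1 => ({y | y ∉ (vis c o n).2 ∧ ∃ x ∈ (vis c o n).1, c n x y},
      (vis c o n).2 ∪ {y | y ∉ (vis c o n).2 ∧ ∃ x ∈ (vis c o n).1, c n x y})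

/-- the levels of the exploration. -/
def lev (c : ℕ → V → V → Prop) (o : V) (n : ℕ) : Set V := (vis c o n).1

theorem mem_vis {c : ℕ → V → V → Prop} {o : V} {n : ℕ} {y : V} :
    y ∈ (vis c o n).2 ↔ ∃ j ≤ n, y ∈ lev c o j := by
  induction n with
  | zero => simp [vis, lev]
  | succ n ih =>
    have e : (vis c o (n + 1)).2 = (vis c o n).2 ∪ lev c o (n + 1) := rfl
    rw [e, mem_union, ih]
    constructor
    · rintro (⟨j, hj, h⟩ | h)
      · exact ⟨j, by omega, h⟩
      · exact ⟨n + 1, le_rfl, h⟩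
    · rintro ⟨j, hj, h⟩
      rcases Nat.lt_or_ge j (n + 1) with h1 | h1
      · exact Or.inl ⟨j, by omega, h⟩
      · obtain rfl : j = n + 1 := by omega
        exact Or.inr h

theorem lev_zero (c : ℕ → V → V → Prop) (o : V) : lev c o 0 = {o} := rfl

theorem mem_lev_succ {c : ℕ → V → V → Prop} {o : V} {n : ℕ} {y : V} :
    y ∈ lev c o (n + 1) ↔ (∀ j ≤ n, y ∉ lev c o j) ∧ ∃ x ∈ lev c o n, c n x y := by
  have e : y ∈ lev c o (n + 1) ↔ y ∉ (vis c o n).2 ∧ ∃ x ∈ lev c o n, c n x y := Iff.rfl
  rw [e, mem_vis]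
  simp

theorem lev_unique {c : ℕ → V → V → Prop} {o : V} {i j : ℕ} {y : V} (hi : y ∈ lev c o i)
    (hj : y ∈ lev c o j) : i = j := by
  wlog h : i < j generalizing i j
  · rcases (not_lt.1 h).eq_or_lt with h1 | h1
    · exact h1.symm
    · exact (this hj hi h1).symm
  obtain ⟨k, rfl⟩ : ∃ k, j = k + 1 := ⟨j - 1, by omega⟩
  exact absurd hi ((mem_lev_succ.1 hj).1 i (by omega))

/-- all levels are finite and nonempty. -/
def AllLev (c : ℕ → V → V → Prop) (o : V) : Prop :=
  ∀ n, (∀ i ≤ n, (lev c o i).Finite) ∧ (lev c o n).Nonempty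

/-- the history up to time `n` is the one coded by `l`. -/
def Hist (c : ℕ → V → V → Prop) (o : V) (n : ℕ) (l : V →₀ ℕ) : Prop :=
  ((∀ x, l x ≤ n + 1) ∧ ∃ x, n + 1 - l x = n) ∧ ∀ i ≤ n, ∀ x, x ∈ lev c o i ↔ n + 1 - l x = i

theorem Hist.unique {c : ℕ → V → V → Prop} {o : V} {n : ℕ} {l l' : V →₀ ℕ} (h : Hist c o n l)
    (h' : Hist c o n l') : l = l' := by
  ext x
  have a := h.1.1 x
  have a' := h'.1.1 x
  rcases Nat.eq_zero_or_pos (l x) with h0 | h0
  · rcases Nat.eq_zero_or_pos (l' x) with h1 | h1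
    · omega
    · have := (h.2 _ (by omega) x).1 ((h'.2 (n + 1 - l' x) (by omega) x).2 rfl)
      omega
  · have := (h'.2 _ (by omega) x).1 ((h.2 (n + 1 - l x) (by omega) x).2 rfl)
    omega

theorem good_iff {c : ℕ → V → V → Prop} {o : V} {n : ℕ} :
    ((∀ i ≤ n, (lev c o i).Finite) ∧ (lev c o n).Nonempty) ↔ ∃ l, Hist c o n l := by
  classical
  constructor
  · rintro ⟨hf, x0, hx0⟩
    set f : V → ℕ := fun x => if h : ∃ j ≤ n, x ∈ lev c o j then n + 1 - h.choose else 0 with hf'
    have key : ∀ i ≤ n, ∀ x, x ∈ lev c o i ↔ n + 1 - f x = i := by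
      intro i hi x
      by_cases h : ∃ j ≤ n, x ∈ lev c o j
      · have h1 := h.choose_spec
        simp only [hf', dif_pos h]
        constructor
        · intro hx
          have := lev_unique hx h1.2
          omega
        · intro hx
          have : h.choose = i := by omega
          exact this ▸ h1.2
      · simp only [hf', dif_neg h]
        exact ⟨fun hx => absurd ⟨i, hi, hx⟩ h, fun hx => by omega⟩
    have fin : (Function.support f).Finite := by
      refine ((finite_le_nat n).biUnion fun i hi => hf i hi).subset fun x hx => ?_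
      by_cases h : ∃ j ≤ n, x ∈ lev c o j
      · obtain ⟨j, hj, hx⟩ := h
        exact mem_biUnion hj hx
      · simp [hf', dif_neg h] at hx
    refine ⟨Finsupp.ofSupportFinite f fin, ⟨fun x => ?_, x0, (key n le_rfl x0).1 hx0⟩, key⟩
    change f x ≤ n + 1
    simp only [hf']
    split_ifs <;> omega
  · rintro ⟨l, ⟨-, x0, hx0⟩, h⟩
    refine ⟨fun i hi => l.hasFiniteSupport.subset fun x hx => ?_, x0, (h n le_rfl x0).2 hx0⟩
    have := (h i hi x).1 hx
    rw [Function.mem_support]
    omega

theorem Hist.agree {c c' : ℕ → V → V → Prop} {o : V} {n : ℕ} {l : V →₀ ℕ}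
    (hc : ∀ x y, n + 1 - l x < n + 1 - l y → (c (n + 1 - l x) x y ↔ c' (n + 1 - l x) x y))
    (h : Hist c o n l) : Hist c' o n l := by
  have key : ∀ i ≤ n, lev c' o i = lev c o i := by
    intro i
    induction i using Nat.strong_induction_on with
    | _ i ih =>
      intro hi
      rcases i with _ | i
      · rfl
      ext y
      rw [mem_lev_succ, mem_lev_succ, ih i (by omega) (by omega)]
      have e : (∀ j ≤ i, y ∉ lev c' o j) ↔ ∀ j ≤ i, y ∉ lev c o j :=
        forall₂_congr fun j hj => by rw [ih j (by omega) (by omega)]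
      rw [e]
      refine and_congr_right fun hy => exists_congr fun x => and_congr_right fun hx => ?_
      have h1 := (h.2 i (by omega) x).1 hx
      have h2 : i < n + 1 - l y := by
        by_contra h3
        exact hy _ (not_lt.1 h3) ((h.2 _ (by omega) y).2 rfl)
      have := hc x y (by omega)
      rw [h1] at this
      exact this.symm
  exact ⟨h.1, fun i hi x => by rw [key i hi]; exact h.2 i hi x⟩

section Meas

variable [Countable V] {Ω : Type} [MeasurableSpace Ω]

theorem meas_lev {c : Ω → ℕ → V → V → Prop} (hc : ∀ n x y, Measurable fun ω => c ω n x y) (o : V)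
    (n : ℕ) : ∀ y, Measurable fun ω => y ∈ lev (c ω) o n := by
  induction n using Nat.strong_induction_on with
  | _ n ih =>
    intro y
    rcases n with _ | n
    · exact measurable_const
    simp only [mem_lev_succ]
    refine (Measurable.forall fun j => ?_).and
      (Measurable.exists fun x => (ih n (by omega) x).and (hc n x y))
    by_cases hj : j ≤ n
    · exact measurable_const.imp (ih j (by omega) y).not
    · simp [hj]

theorem meas_hist {c : Ω → ℕ → V → V → Prop} (hc : ∀ n x y, Measurable fun ω => c ω n x y) (o : V)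
    (n : ℕ) (l : V →₀ ℕ) : MeasurableSet {ω | Hist (c ω) o n l} :=
  measurableSet_setOfPred.2 (measurable_const.and (Measurable.forall fun i => measurable_const.imp
    (Measurable.forall fun x => (meas_lev hc o i x).iff measurable_const)))

theorem prob_allLev (P : Measure Ω) [IsProbabilityMeasure P] {c : Ω → ℕ → V → V → Prop}
    (hc : ∀ n x y, Measurable fun ω => c ω n x y) (o : V) :
    P {ω | AllLev (c ω) o} = ⨅ n, ∑' l, P {ω | Hist (c ω) o n l} := by
  have e1 : {ω | AllLev (c ω) o} = ⋂ n, ⋃ l, {ω | Hist (c ω) o n l} := by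
    ext ω
    simp only [AllLev, good_iff, mem_ofPred_eq, mem_iInter, mem_iUnion]
  rw [e1, Antitone.measure_iInter]
  · refine iInf_congr fun n => measure_iUnion (fun l l' h => ?_) fun l => meas_hist hc o n l
    exact disjoint_left.2 fun ω h1 h2 => h (Hist.unique h1 h2)
  · refine antitone_nat_of_succ_le fun n ω h => ?_
    simp only [mem_iUnion, mem_ofPred_eq, ← good_iff] at h ⊢
    obtain ⟨h1, y, hy⟩ := h
    obtain ⟨x, hx, -⟩ := (mem_lev_succ.1 hy).2
    exact ⟨fun i hi => h1 i (by omega), x, hx⟩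
  · exact fun n => (MeasurableSet.iUnion fun l => meas_hist hc o n l).nullMeasurableSet
  · exact ⟨0, measure_ne_top _ _⟩

/-- steps of the static site-bond model. -/
def cT (w : (Sym2 V → Prop) × (V → Prop)) (_n : ℕ) (x y : V) : Prop := w.2 x ∧ w.1 s(x, y)

theorem meas_cT (n : ℕ) (x y : V) : Measurable fun w : (Sym2 V → Prop) × (V → Prop) =>
    cT w n x y := by
  unfold cT
  fun_prop

theorem transfer (P : Measure Ω) [IsProbabilityMeasure P]
    (Q : Measure ((Sym2 V → Prop) × (V → Prop))) [IsProbabilityMeasure Q]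
    {c : Ω → ℕ → V → V → Prop} (hc : ∀ n x y, Measurable fun ω => c ω n x y) (o : V)
    (h : ∀ ρ : V → ℕ, ∃ Φ, MeasurePreserving Φ P Q ∧
      ∀ ω x y, ρ x < ρ y → (c ω (ρ x) x y ↔ cT (Φ ω) 0 x y)) :
    P {ω | AllLev (c ω) o} = Q {w | AllLev (cT w) o} := by
  rw [prob_allLev P hc, prob_allLev Q meas_cT]
  refine iInf_congr fun n => tsum_congr fun l => ?_
  obtain ⟨Φ, h1, h2⟩ := h fun x => n + 1 - l x
  rw [← h1.measure_preimage (meas_hist meas_cT o n l).nullMeasurableSet]
  congr 1
  ext ω
  exact ⟨Hist.agree (h2 ω), Hist.agree fun x y hxy => (h2 ω x y hxy).symm⟩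

end Meas

section Static

variable {r : V → V → Prop} {o : V}

theorem reach_iff {y : V} :
    Relation.ReflTransGen r o y ↔ ∃ n, y ∈ lev (fun _ => r) o n := by
  constructor
  · intro h
    induction h with
    | refl => exact ⟨0, rfl⟩
    | @tail b z _ hbz ih =>
      obtain ⟨n, hn⟩ := ih
      by_cases h : ∀ j ≤ n, z ∉ lev (fun _ => r) o j
      · exact ⟨n + 1, mem_lev_succ.2 ⟨h, b, hn, hbz⟩⟩
      · push Not at h
        obtain ⟨j, -, hj⟩ := h
        exact ⟨j, hj⟩
  · rintro ⟨n, hn⟩
    induction n generalizing y with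
    | zero => rw [show y = o from hn]
    | succ n ih =>
      obtain ⟨x, hx, hxy⟩ := (mem_lev_succ.1 hn).2
      exact (ih hx).tail hxy

theorem inf_of_allLev (h : AllLev (fun _ => r) o) : {y | Relation.ReflTransGen r o y}.Infinite := by
  choose f hf using fun n => (h n).2
  refine infinite_of_injective_forall_mem (f := f) (fun i j hij => ?_)
    fun n => reach_iff.2 ⟨n, hf n⟩
  exact lev_unique (hf i) (hij ▸ hf j)

theorem allLev_of_inf (hr : ∀ x, {y | r x y}.Finite)
    (h : {y | Relation.ReflTransGen r o y}.Infinite) : AllLev (fun _ => r) o := by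
  have hf : ∀ n, (lev (fun _ => r) o n).Finite := by
    intro n
    induction n with
    | zero => exact finite_singleton o
    | succ n ih =>
      refine (ih.biUnion fun x _ => hr x).subset fun y hy => ?_
      obtain ⟨x, hx, hxy⟩ := (mem_lev_succ.1 hy).2
      exact mem_biUnion hx hxy
  refine fun n => ⟨fun i _ => hf i, ?_⟩
  by_contra hn
  have he : ∀ k, ¬(lev (fun _ => r) o (n + k)).Nonempty := by
    intro k
    induction k with
    | zero => exact hn
    | succ k ih =>
      rintro ⟨y, hy⟩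
      obtain ⟨x, hx, -⟩ := (mem_lev_succ (n := n + k).1 hy).2
      exact ih ⟨x, hx⟩
  refine h (((finite_le_nat n).biUnion fun i _ => hf i).subset fun y hy => ?_)
  obtain ⟨j, hj⟩ := reach_iff.1 hy
  refine mem_biUnion (show j ≤ n from ?_) hj
  by_contra hjn
  refine he (j - n) ⟨y, ?_⟩
  rwa [show n + (j - n) = j by omega]

end Static

end Pool.Agent.Lib.MP_bc6f6d_pr
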