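import Pool.Agent.Lib.MP_bc6f6d_pr.Poisson

-- part Pool.Agent.Lib.MP_bc6f6d_pr.Dynamic
section

set_option autoImplicit false
set_option linter.unusedSectionVars false

namespace Pool.Agent.Lib.MP_bc6f6d_pr

open MeasureTheory ProbabilityTheory Set Function
open scoped NNReal ENNReal

theorem mem_law {X : Type} [MeasurableSpace X] (μ : Measure X) [IsProbabilityMeasure μ]
    {A : Set X} (hA : MeasurableSet A) {p : unitInterval} (h : μ A = ENNReal.ofReal p) :
    μ.map (fun w => w ∈ A) = bernoulliMeasure True False p := by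
  have hm : Measurable fun w => w ∈ A := measurable_mem.2 hA
  have := Measure.isProbabilityMeasure_map (μ := μ) hm.aemeasurable
  have h1 : μ.map (fun w => w ∈ A) {z | z} = bernoulliMeasure True False p {z | z} := by
    rw [Measure.map_apply hm MeasurableSet.of_discrete, ber_true, ← h]; rfl
  refine Measure.ext_of_singleton fun z => ?_
  by_cases hz : z
  · have : ({z} : Set Prop) = {z | z} := by ext y; simp [hz]
    rw [this, h1]
  · have : ({z} : Set Prop) = {z | z}ᶜ := by ext y; simp [hz]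
    rw [this, prob_compl_eq_one_sub MeasurableSet.of_discrete,
      prob_compl_eq_one_sub MeasurableSet.of_discrete, h1]

variable {V : Type}

theorem Infected.before {ω : Omega V} {x y : V} {T : ℝ} (h : Infected ω x y T) :
    ∀ t, 0 ≤ t → t ≤ T → ∃ z, Infected ω x z t := by
  induction h with
  | start => exact fun t h1 h2 => ⟨x, le_antisymm h1 h2 ▸ .start⟩
  | wait y s u h1 _ h3 ih =>
    intro t h4 h5
    rcases le_total t s with h6 | h6
    · exact ih t h4 h6
    · exact ⟨y, .wait y s t h1 h6 fun j r hj hr => h3 j r hj ⟨hr.1, hr.2.trans h5⟩⟩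
  | jump y z u _ _ _ _ ih => exact ih

theorem survive_of_allLev {ω : Omega V} {o : V} {τ : ℝ} (hτ : 0 < τ) {c : ℕ → V → V → Prop}
    (hc : ∀ n x y, c n x y → NoPt (ω.2 x) (n * τ) ((n + 2) * τ) ∧
      ∃ T, (n + 1) * τ < T ∧ T ≤ (n + 2) * τ ∧ (∃ j, Pt (ω.1 s(x, y)).1.2 j T) ∧
        IsOpenAt (ω.1 s(x, y)) T)
    (h : AllLev c o) (t : ℝ) (ht : 0 ≤ t) : ∃ y, Infected ω o y t := by
  have key : ∀ n : ℕ, ∀ y ∈ lev c o n, ∃ s, n * τ ≤ s ∧ s ≤ (n + 1) * τ ∧ Infected ω o y s := by
    intro n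
    induction n with
    | zero =>
      intro y hy
      rw [show y = o from hy]
      exact ⟨0, by simp, by simpa using hτ.le, .start⟩
    | succ n ih =>
      intro y hy
      obtain ⟨h1, x, hx, hxy⟩ := mem_lev_succ.1 hy
      obtain ⟨s, s1, s2, s3⟩ := ih x hx
      obtain ⟨c1, T, t1, t2, t3, t4⟩ := hc n x y hxy
      refine ⟨T, by push_cast; linarith, by push_cast; linarith, .jump x y T
        (.wait x s T s3 (by linarith) fun j r hj hr => c1 j r hj ⟨?_, ?_⟩) ?_ t3 t4⟩
      · linarith [hr.1]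
      · linarith [hr.2]
      · rintro rfl
        exact h1 n le_rfl hx
  obtain ⟨n, hn⟩ := exists_nat_ge (t / τ)
  obtain ⟨y, hy⟩ := (h n).2
  obtain ⟨s, s1, -, s3⟩ := key n y hy
  exact s3.before t ht (((div_le_iff₀ hτ).1 hn).trans s1)

variable [Countable V]

theorem dyn_ge (vv : Sym2 V → ℝ≥0) (pp α : Sym2 V → unitInterval) (lam : ℝ≥0) {τ : ℝ}
    (hτ : 0 < τ) (σ : unitInterval) (hα : ∀ e, (α e : ℝ) = (1 - Real.exp (-(lam * τ))) * pp e)
    (hσ : (σ : ℝ) = Real.exp (-(2 * τ))) (o : V) :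
    QT α σ {w | AllLev (cT w) o} ≤
      (Measure.infinitePi fun e => edgeLaw (vv e) lam (pp e)).prod
        (Measure.infinitePi fun _ : V => ppLaw 1) {ω | ∀ t : ℝ, 0 ≤ t → ∃ y, Infected ω o y t} := by
  have hA := fun (e : Sym2 V) (n : ℕ) => edge_event (vv e) lam (pp e) (a := (n + 1) * τ)
    (b := (n + 2) * τ) (by positivity) (by nlinarith)
  choose A A1 A2 A3 using hA
  have hH : ∀ n : ℕ, MeasurableSet {c : ℕ → Cell | NoPt c (n * τ) ((n + 2) * τ)} := fun n =>
    measurableSet_setOfPred.2 (meas_noPt measurable_id measurable_const measurable_const)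
  rw [← transfer ((Measure.infinitePi fun e => edgeLaw (vv e) lam (pp e)).prod
      (Measure.infinitePi fun _ : V => ppLaw 1)) (QT α σ)
    (c := fun (ω : Omega V) n x y => ω.2 x ∈ {c : ℕ → Cell | NoPt c (n * τ) ((n + 2) * τ)} ∧
      ω.1 s(x, y) ∈ A s(x, y) n) ?_ o fun ρ => ?_]
  · exact measure_mono fun ω h => survive_of_allLev hτ
      (fun n x y hxy => ⟨hxy.1, A3 _ _ _ hxy.2⟩) h
  · intro n x y
    exact (measurable_mem.2 ((hH n).preimage (f := fun ω : Omega V => ω.2 x) (by fun_prop))).and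
      (measurable_mem.2 ((A1 _ n).preimage (f := fun ω : Omega V => ω.1 s(x, y)) (by fun_prop)))
  · set m : Sym2 V → ℕ := Sym2.lift ⟨fun x y => min (ρ x) (ρ y), fun _ _ => min_comm _ _⟩ with hm
    have h1 : MeasurePreserving (fun (w : Sym2 V → EdgeData) e => w e ∈ A e (m e))
        (Measure.infinitePi fun e => edgeLaw (vv e) lam (pp e)) (coins α) := by
      have hf : ∀ e, Measurable fun w : EdgeData => w ∈ A e (m e) := fun e =>
        measurable_mem.2 (A1 _ _)
      refine ⟨measurable_pi_lambda _ fun e => (hf e).comp (measurable_pi_apply e), ?_⟩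
      rw [Measure.infinitePi_map_pi _ hf, coins]
      congr 1
      funext e
      refine mem_law _ (A1 _ _) ?_
      rw [A2, hα]
      congr 4
      ring
    have h2 : MeasurePreserving (fun (w : V → ℕ → Cell) x =>
        w x ∈ {c : ℕ → Cell | NoPt c (ρ x * τ) ((ρ x + 2) * τ)})
        (Measure.infinitePi fun _ : V => ppLaw 1) (coins fun _ => σ) := by
      have hf : ∀ x, Measurable fun w : ℕ → Cell =>
          w ∈ {c : ℕ → Cell | NoPt c (ρ x * τ) ((ρ x + 2) * τ)} := fun x =>
        measurable_mem.2 (hH _)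
      refine ⟨measurable_pi_lambda _ fun e => (hf e).comp (measurable_pi_apply e), ?_⟩
      rw [Measure.infinitePi_map_pi _ hf, coins]
      congr 1
      funext x
      refine mem_law _ (hH _) ?_
      rw [pp_void 1 (by positivity) (by nlinarith), hσ]
      congr 3
      push_cast
      ring
    refine ⟨_, h1.prod h2, fun ω x y hxy => ?_⟩
    have : m s(x, y) = ρ x := min_eq_left hxy.le
    simp only [cT, Prod.map_fst, Prod.map_snd, this]

end Pool.Agent.Lib.MP_bc6f6d_pr
end

-- part Pool.Agent.Lib.MP_bc6f6d_pr.Main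
section

set_option autoImplicit false
set_option linter.unusedSectionVars false

namespace Pool.Agent.Lib.MP_bc6f6d_pr

open MeasureTheory ProbabilityTheory Set Function
open scoped NNReal ENNReal

variable {V : Type} {G : SimpleGraph V}

theorem countable_of_conn (hconn : G.Connected) (hf : ∀ x, (G.neighborSet x).Finite) :
    Countable V := by
  obtain ⟨o⟩ := hconn.nonempty
  have h1 : ∀ n, (lev (fun _ => G.Adj) o n).Finite := by
    intro n
    induction n with
    | zero => exact finite_singleton o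
    | succ n ih =>
      refine (ih.biUnion fun x _ => hf x).subset fun y hy => ?_
      obtain ⟨x, hx, hxy⟩ := (mem_lev_succ.1 hy).2
      exact mem_biUnion hx hxy
  rw [← countable_univ_iff]
  refine (countable_iUnion fun n => (h1 n).countable).mono fun y _ => ?_
  exact mem_iUnion.2 (reach_iff.1 ((G.reachable_iff_reflTransGen o y).1 (hconn o y)))

theorem iso_dist (hconn : G.Connected) (φ : G ≃g G) (x y : V) :
    G.dist (φ x) (φ y) = G.dist x y := by
  have h : ∀ (ψ : G ≃g G) (x y : V), G.dist (ψ x) (ψ y) ≤ G.dist x y := by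
    intro ψ x y
    obtain ⟨w, hw⟩ := hconn.exists_walk_length_eq_dist x y
    have := SimpleGraph.dist_le (w.map ψ.toHom)
    rwa [SimpleGraph.Walk.length_map, hw] at this
  refine le_antisymm (h φ x y) ?_
  simpa using h φ.symm (φ x) (φ y)

theorem len_mk (x y : V) : len G s(x, y) = G.dist x y := rfl

theorem pos_at [Countable V] (hconn : G.Connected) (htrans : ∀ x y, ∃ φ : G ≃g G, φ x = y)
    {p : ℕ → unitInterval} {q : unitInterval} (h : Percolates G p q) (o : V) :
    0 < coins (fun e : Sym2 V => q * p (len G e))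
      {a | {y | Relation.ReflTransGen (fun x y => a s(x, y)) o y}.Infinite} := by
  rw [pos_iff_ne_zero]
  intro h0
  have h1 : ∀ x, coins (fun e : Sym2 V => q * p (len G e))
      {a | {y | Relation.ReflTransGen (fun x y => a s(x, y)) x y}.Infinite} = 0 := by
    intro x
    obtain ⟨φ, rfl⟩ := htrans o x
    have h2 := coins_reindex (fun e : Sym2 V => q * p (len G e))
      (Sym2.map.injective φ.injective)
    have h3 : (fun e : Sym2 V => q * p (len G (e.map φ))) = fun e => q * p (len G e) := by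
      funext e
      induction e using Sym2.ind with
      | h x y => rw [Sym2.map_mk, len_mk, len_mk, iso_dist hconn]
    rw [h3] at h2
    rw [← h2.measure_preimage (meas_inf (r := fun (a : Sym2 V → Prop) x y => a s(x, y))
      (by fun_prop) o).nullMeasurableSet] at h0
    refine measure_mono_null (fun a ha => ?_) h0
    refine (ha.image (f := φ.symm) φ.symm.injective.injOn).mono ?_
    rintro _ ⟨y, hy, rfl⟩
    change Relation.ReflTransGen _ _ _ at hy ⊢
    induction hy with
    | refl => rw [RelIso.symm_apply_apply]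
    | tail _ h4 ih => exact ih.tail (by simpa using h4)
  have h4 : ∀ᵐ a ∂coins (fun e : Sym2 V => q * p (len G e)), False := by
    filter_upwards [h, ae_all_iff.2 fun x => measure_eq_zero_iff_ae_notMem.1 (h1 x)] with a ha hb
    obtain ⟨x, hx⟩ := ha
    rw [SimpleGraph.reachable_fromEdgeSet_eq_reflTransGen_toRel] at hx
    exact hb x hx
  exact Filter.NeBot.ne inferInstance (Filter.eventually_false_iff_eq_bot.1 h4)

theorem summable_p {p : ℕ → unitInterval} {v : ℕ → ℝ≥0}
    (hv : ∀ x y, x ≠ y → 0 < v (G.dist x y))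
    (h1 : ∀ x, Summable fun y : {y // y ≠ x} => (v (G.dist x y) : ℝ) * p (G.dist x y))
    (h2 : ∀ x, Summable fun y : {y // y ≠ x} => (v (G.dist x y) : ℝ)⁻¹) (x : V) :
    Summable fun y => (p (G.dist x y) : ℝ) := by
  rw [← (finite_singleton x).summable_compl_iff]
  refine Summable.of_nonneg_of_le (fun y => (p _).2.1) (fun y => ?_)
    ((h1 x).mul_left (∑' y : {y // y ≠ x}, (v (G.dist x y) : ℝ)⁻¹))
  have a1 := (h2 x).le_tsum y fun _ _ => by positivity
  have a2 : (0 : ℝ) < v (G.dist x y) := hv x y (Ne.symm y.2)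
  have a3 := mul_le_mul_of_nonneg_right a1 (mul_nonneg a2.le (p (G.dist x y)).2.1)
  rwa [← mul_assoc, inv_mul_cancel₀ a2.ne', one_mul] at a3

theorem exp_le_one_sub {b q : ℝ} (hb : 0 ≤ b) (hbq : b ≤ q) (hq : q < 1) :
    Real.exp (-(b / (1 - q))) ≤ 1 - b := by
  have h1 : 0 < 1 - q := sub_pos.2 hq
  rw [Real.exp_neg, inv_le_comm₀ (Real.exp_pos _) (by linarith)]
  refine le_trans ?_ (Real.add_one_le_exp _)
  rw [inv_le_iff_one_le_mul₀ (by linarith)]
  have : b ≤ b / (1 - q) * (1 - b) := by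
    rw [div_mul_eq_mul_div, le_div_iff₀ h1]
    nlinarith
  nlinarith

theorem main (hconn : G.Connected) (htrans : ∀ x y, ∃ φ : G ≃g G, φ x = y)
    (hdeg : ∃ D : ℕ, ∀ x, (G.neighborSet x).encard ≤ D) (p : ℕ → unitInterval) (v : ℕ → ℝ≥0)
    (hv : ∀ x y, x ≠ y → 0 < v (G.dist x y))
    (h1 : ∀ x, Summable fun y : {y // y ≠ x} => (v (G.dist x y) : ℝ) * p (G.dist x y))
    (h2 : ∀ x, Summable fun y : {y // y ≠ x} => (v (G.dist x y) : ℝ)⁻¹)
    (o : V) (q : unitInterval) (hq : sInf {q | 0 < q ∧ q < 1 ∧ Percolates G p q} < q) :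
    (⨆ (γ : ℝ≥0) (_ : 0 < γ) (q' : unitInterval) (_ : q < q' ∧ q' < 1), lamC G p v o γ q') < ⊤ := by
  obtain ⟨D, hD⟩ := hdeg
  have : Countable V := countable_of_conn hconn fun x => finite_of_encard_le_coe (hD x)
  obtain ⟨r, ⟨-, hr1, hr⟩, hrq⟩ := sInf_lt_iff.1 hq
  have hr1' : (r : ℝ) < 1 := hr1
  have hrq' : (r : ℝ) < q := hrq
  have hs := summable_p hv h1 h2
  set M : ℝ := ∑' y, (p (G.dist o y) : ℝ) with hM
  have hMx : ∀ x (t : Finset V), ∑ y ∈ t, (p (G.dist x y) : ℝ) ≤ M := by
    intro x t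
    refine ((hs x).sum_le_tsum t fun y _ => (p _).2.1).trans (le_of_eq ?_)
    obtain ⟨φ, rfl⟩ := htrans o x
    rw [hM, ← φ.toEquiv.tsum_eq]
    exact tsum_congr fun y => congrArg (fun n => (p n : ℝ)) (iso_dist hconn φ o y)
  set c : ℝ := (q - r) / 2 with hc
  have hc0 : 0 < c := by rw [hc]; linarith
  have hc1 : c ≤ 1 / 2 := by rw [hc]; linarith [q.2.2, r.2.1]
  set τ : ℝ := c * Real.exp (-(M / (1 - r))) / 2 with hτ
  have hτ0 : 0 < τ := by positivity
  set lam : ℝ≥0 := ⟨1 / (c * τ), by positivity⟩ with hlam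
  have hl : Real.exp (-(lam * τ)) ≤ c := by
    have e : (lam : ℝ) * τ = c⁻¹ := by
      change 1 / (c * τ) * τ = _
      field_simp
    rw [e, Real.exp_neg, inv_le_comm₀ (Real.exp_pos _) hc0]
    linarith [Real.add_one_le_exp c⁻¹]
  refine lt_of_le_of_lt (iSup₂_le fun γ _ => iSup₂_le fun q' hq' => ?_)
    (ENNReal.coe_lt_top (r := lam))
  refine iInf₂_le lam ?_
  have hqq' : (q : ℝ) < q' := hq'.1
  set η : unitInterval := ⟨1 - Real.exp (-(lam * τ)), by linarith, by
    linarith [Real.exp_pos (-(lam * τ))]⟩ with hη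
  set σ : unitInterval := ⟨Real.exp (-(2 * τ)), (Real.exp_pos _).le,
    Real.exp_le_one_iff.2 (by linarith)⟩ with hσ
  refine ((pos_at hconn htrans hr o).trans_le (mixed_ge (α := fun e => η * (q' * p (len G e)))
    (σ := σ) hc0.le (fun e => ?_) (fun e => ?_) (fun x t => ?_) (fun x => ?_) o)).trans_le
    (dyn_ge _ _ _ lam hτ0 σ (fun e => rfl) rfl o)
  · change (r : ℝ) * p (len G e) ≤ (1 - c) * ((1 - Real.exp (-(lam * τ))) * (q' * p (len G e)))
    have a1 : (r : ℝ) ≤ (1 - c) * ((1 - c) * q) := by nlinarith [q.2.1, q.2.2, sq_nonneg c]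
    have a2 : (1 - c) * q ≤ (1 - Real.exp (-(lam * τ))) * q' :=
      mul_le_mul (by linarith) hqq'.le q.2.1 (by linarith)
    have a3 := mul_le_mul_of_nonneg_left a2 (show 0 ≤ 1 - c by linarith)
    have a4 := mul_le_mul_of_nonneg_right (a1.trans a3) (p (len G e)).2.1
    linarith
  · change (r : ℝ) * p (len G e) < 1
    exact (mul_le_of_le_one_right r.2.1 (p _).2.2).trans_lt hr1'
  · change 1 - Real.exp (-(2 * τ)) ≤ c * ∏ y ∈ t, (1 - (r : ℝ) * p (G.dist x y))
    have a1 : 1 - Real.exp (-(2 * τ)) ≤ 2 * τ := by linarith [Real.add_one_le_exp (-(2 * τ))]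
    have a2 : Real.exp (-(M / (1 - r))) ≤ ∏ y ∈ t, (1 - (r : ℝ) * p (G.dist x y)) := by
      refine le_trans ?_ (Finset.prod_le_prod (fun y _ => (Real.exp_pos _).le) fun y _ =>
        exp_le_one_sub (mul_nonneg r.2.1 (p _).2.1) (mul_le_of_le_one_right r.2.1 (p _).2.2) hr1')
      rw [← Real.exp_sum, Real.exp_le_exp, Finset.sum_neg_distrib, neg_le_neg_iff,
        ← Finset.sum_div]
      refine div_le_div_of_nonneg_right (le_trans ?_ (hMx x t)) (by linarith)
      exact Finset.sum_le_sum fun y _ => mul_le_of_le_one_left (p _).2.1 r.2.2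
    have a3 := mul_le_mul_of_nonneg_left a2 hc0.le
    linarith
  · refine Summable.of_nonneg_of_le (fun y => (η * (q' * p (len G s(x, y)))).2.1) (fun y => ?_)
      (hs x)
    exact (unitInterval.mul_le_right.trans unitInterval.mul_le_right :
      η * (q' * p (len G s(x, y))) ≤ p (len G s(x, y)))

end Pool.Agent.Lib.MP_bc6f6d_pr
end
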