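import Pool.Agent.Lib.MP_bc6f6d_pr.Static

set_option autoImplicit false
set_option linter.unusedSectionVars false

namespace Pool.Agent.Lib.MP_bc6f6d_pr

open MeasureTheory ProbabilityTheory Set Function
open scoped NNReal ENNReal

instance (r : ℝ≥0) : IsProbabilityMeasure (cellLaw r) := by unfold cellLaw; infer_instance

instance (r : ℝ≥0) : IsProbabilityMeasure (ppLaw r) := by unfold ppLaw; infer_instance

instance (v lam : ℝ≥0) (p : unitInterval) : IsProbabilityMeasure (edgeLaw v lam p) := by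
  unfold edgeLaw; infer_instance

theorem meas_pos {X : Type} [MeasurableSpace X] {c : X → ℕ → Cell} (hc : Measurable c)
    (j : ℕ × ℕ) : Measurable fun x => (j.1 : ℝ) + (((c x j.1).2 j.2 : unitInterval) : ℝ) := by
  fun_prop

theorem meas_valid {X : Type} [MeasurableSpace X] {c : X → ℕ → Cell} (hc : Measurable c)
    (j : ℕ × ℕ) : Measurable fun x => j.2 < (c x j.1).1 :=
  measurableSet_setOfPred.1 (measurableSet_lt measurable_const (by fun_prop))

theorem noPt_iff {c : ℕ → Cell} {s t : ℝ} : NoPt c s t ↔ ∀ j : ℕ × ℕ, j.2 < (c j.1).1 →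
    ¬(s < (j.1 : ℝ) + ((c j.1).2 j.2 : ℝ) ∧ (j.1 : ℝ) + ((c j.1).2 j.2 : ℝ) ≤ t) :=
  ⟨fun h j hj => h j _ ⟨hj, rfl⟩, fun h j _ hj => hj.2 ▸ h j hj.1⟩

theorem meas_noPt {X : Type} [MeasurableSpace X] {c : X → ℕ → Cell} {s t : X → ℝ}
    (hc : Measurable c) (hs : Measurable s) (ht : Measurable t) :
    Measurable fun x => NoPt (c x) (s x) (t x) := by
  simp only [noPt_iff]
  exact Measurable.forall fun j => (meas_valid hc j).imp
    ((measurableSet_setOfPred.1 (measurableSet_lt hs (meas_pos hc j))).and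
      (measurableSet_setOfPred.1 (measurableSet_le (meas_pos hc j) ht))).not

theorem meas_void {U : Set unitInterval} (hU : MeasurableSet U) :
    MeasurableSet {c : Cell | ∀ i < c.1, c.2 i ∉ U} :=
  measurableSet_setOfPred.2 (Measurable.forall fun i =>
    (measurableSet_setOfPred.1 (measurableSet_lt measurable_const measurable_fst)).imp
      (measurableSet_setOfPred.1 (hU.compl.preimage (f := fun c : Cell => c.2 i) (by fun_prop))))

theorem cell_void (r : ℝ≥0) {U : Set unitInterval} (hU : MeasurableSet U) :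
    cellLaw r {c | ∀ i < c.1, c.2 i ∉ U} =
      ENNReal.ofReal (Real.exp (-(r * (volume U).toReal))) := by
  set w := (volume U).toReal with hw
  have hw1 : w ≤ 1 := ENNReal.toReal_le_of_le_ofReal zero_le_one (by simpa using prob_le_one)
  have hc : volume Uᶜ = ENNReal.ofReal (1 - w) := by
    rw [prob_compl_eq_one_sub hU, ENNReal.ofReal_sub _ ENNReal.toReal_nonneg, ENNReal.ofReal_one,
      ENNReal.ofReal_toReal (measure_ne_top _ _)]
  rw [cellLaw, Measure.prod_apply (meas_void hU), lintegral_countable']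
  have e : ∀ n : ℕ, (Measure.infinitePi fun _ : ℕ => (volume : Measure unitInterval))
      (Prod.mk n ⁻¹' {c : Cell | ∀ i < c.1, c.2 i ∉ U}) * poissonMeasure r {n} =
      ENNReal.ofReal (Real.exp (-r) * ((r * (1 - w)) ^ n / n.factorial)) := by
    intro n
    have e1 : Prod.mk n ⁻¹' {c : Cell | ∀ i < c.1, c.2 i ∉ U} =
        Set.pi (Finset.range n : Set ℕ) fun _ => Uᶜ := by
      ext u; simp
    rw [e1, Measure.infinitePi_pi _ fun _ _ => hU.compl, Finset.prod_const, Finset.card_range, hc,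
      poissonMeasure_singleton, ← ENNReal.ofReal_pow (by linarith),
      ← ENNReal.ofReal_mul (pow_nonneg (by linarith) _)]
    congr 1
    rw [mul_pow]; ring
  have hs := (NormedSpace.expSeries_div_hasSum_exp ((r : ℝ) * (1 - w))).mul_left (Real.exp (-r))
  rw [tsum_congr e, ← ENNReal.ofReal_tsum_of_nonneg
    (fun n => by have : 0 ≤ 1 - w := by linarith
                 positivity) hs.summable, hs.tsum_eq, ← Real.exp_eq_exp_ℝ, ← Real.exp_add]
  congr 2
  ring

theorem vol_window (a b : ℝ) : (volume {u : unitInterval | a < u ∧ (u : ℝ) ≤ b}).toReal =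
    max (min b 1 - max a 0) 0 := by
  have e : Subtype.val '' {u : unitInterval | a < u ∧ (u : ℝ) ≤ b} = Ioc a b ∩ Icc 0 1 := by
    ext x
    constructor
    · rintro ⟨u, hu, rfl⟩
      exact ⟨hu, u.2⟩
    · rintro ⟨h1, h2⟩
      exact ⟨⟨x, h2⟩, h1, rfl⟩
  rw [unitInterval.volume_apply, e,
    measure_congr ((ae_eq_refl (Ioc a b)).inter (Ioc_ae_eq_Icc (a := (0 : ℝ)) (b := 1)).symm),
    Ioc_inter_Ioc, Real.volume_Ioc, ENNReal.toReal_ofReal']

theorem sum_window {s t : ℝ} (hs : 0 ≤ s) (hst : s ≤ t) (K : ℕ) :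
    ∑ k ∈ Finset.range K, max (min (t - k) 1 - max (s - k) 0) 0 = min t K - min s K := by
  induction K with
  | zero => simp [hs, hs.trans hst]
  | succ K ih =>
    rw [Finset.sum_range_succ, ih]
    push_cast
    simp only [min_def, max_def]
    split_ifs <;> linarith

theorem pp_void (r : ℝ≥0) {s t : ℝ} (hs : 0 ≤ s) (hst : s ≤ t) :
    ppLaw r {c | NoPt c s t} = ENNReal.ofReal (Real.exp (-(r * (t - s)))) := by
  obtain ⟨K, hK⟩ := exists_nat_gt t
  have hm : ∀ k : ℕ, MeasurableSet {u : unitInterval | s - k < u ∧ (u : ℝ) ≤ t - k} := fun k =>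
    (measurableSet_Ioc (a := s - k) (b := t - k)).preimage measurable_subtype_coe
  have e : {c | NoPt c s t} = Set.pi (Finset.range K : Set ℕ) fun k =>
      {c : Cell | ∀ i < c.1, c.2 i ∉ {u : unitInterval | s - k < u ∧ (u : ℝ) ≤ t - k}} := by
    ext c
    simp only [noPt_iff, mem_ofPred_eq, mem_pi, Finset.coe_range, mem_Iio]
    constructor
    · intro h k _ i hi hu
      exact h (k, i) hi ⟨by linarith [hu.1], by linarith [hu.2]⟩
    · rintro h ⟨k, i⟩ hi hu
      have h0 := ((c k).2 i).2.1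
      have hk : k < K := by
        have : (k : ℝ) < K := by linarith [hu.2]
        exact_mod_cast this
      exact h k hk i hi ⟨by linarith [hu.1], by linarith [hu.2]⟩
  rw [e, ppLaw, Measure.infinitePi_pi _ fun k _ => meas_void (hm k),
    Finset.prod_congr rfl fun k _ => cell_void r (hm k),
    ← ENNReal.ofReal_prod_of_nonneg fun _ _ => (Real.exp_pos _).le, ← Real.exp_sum]
  simp only [vol_window]
  rw [Finset.sum_neg_distrib, ← Finset.mul_sum, sum_window hs hst,
    min_eq_left hK.le, min_eq_left (hst.trans hK.le)]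

theorem exists_last (c : ℕ → Cell) (T : ℝ) :
    NoPt c 0 T ∨ ∃ j s, Pt c j s ∧ 0 < s ∧ s ≤ T ∧ NoPt c s T := by
  by_cases h : NoPt c 0 T
  · exact Or.inl h
  right
  obtain ⟨K, hK⟩ := exists_nat_gt T
  set S : Set (ℕ × ℕ) := {j | j.2 < (c j.1).1 ∧ 0 < (j.1 : ℝ) + ((c j.1).2 j.2 : ℝ) ∧
    (j.1 : ℝ) + ((c j.1).2 j.2 : ℝ) ≤ T} with hS
  have hfin : S.Finite := by
    refine ((finite_lt_nat K).biUnion fun k _ =>
      (finite_singleton k).prod (finite_lt_nat (c k).1)).subset ?_
    rintro ⟨k, i⟩ hj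
    have h0 := ((c k).2 i).2.1
    have hk : k < K := by
      have : (k : ℝ) < K := by linarith [hj.2.2]
      exact_mod_cast this
    exact mem_biUnion hk ⟨rfl, hj.1⟩
  have hne : S.Nonempty := by
    rw [noPt_iff] at h
    push Not at h
    exact h
  obtain ⟨j, hj, hmax⟩ := S.exists_max_image (fun j => (j.1 : ℝ) + ((c j.1).2 j.2 : ℝ)) hfin hne
  refine ⟨j, _, ⟨hj.1, rfl⟩, hj.2.1, hj.2.2, noPt_iff.2 fun i hi hu => ?_⟩
  exact absurd (hmax i ⟨hi, hj.2.1.trans hu.1, hu.2⟩) (not_le.2 hu.1)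

theorem select {X I : Type} [MeasurableSpace X] [Countable I] [Infinite I] (μ : Measure X)
    [IsProbabilityMeasure μ] (R : X → I → Prop) (hR : ∀ j, Measurable fun x => R x j)
    (p : unitInterval) : ∃ A : Set (X × (I → Prop)), MeasurableSet A ∧
      μ.prod (coins fun _ => p) A = μ {x | ∃ j, R x j} * ENNReal.ofReal p ∧
      ∀ w ∈ A, ∃ j, R w.1 j ∧ w.2 j := by
  obtain ⟨e⟩ : Nonempty (ℕ ≃ I) := nonempty_equiv_of_countable
  set s : ℕ → Set X := fun n => {x | R x (e n)} with hs
  have hsm : ∀ n, MeasurableSet (s n) := fun n => measurableSet_setOfPred.2 (hR _)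
  have hdm := MeasurableSet.disjointed hsm
  have hbm : ∀ n, MeasurableSet {b : I → Prop | b (e n)} := fun n =>
    measurableSet_setOfPred.2 (by fun_prop)
  refine ⟨⋃ n, disjointed s n ×ˢ {b | b (e n)}, MeasurableSet.iUnion fun n => (hdm n).prod (hbm n),
    ?_, fun w hw => ?_⟩
  · rw [measure_iUnion (fun i j h => (disjoint_disjointed s h).set_prod_left _ _)
      fun n => (hdm n).prod (hbm n)]
    simp only [Measure.prod_prod, coins_eval]
    rw [ENNReal.tsum_mul_right, ← measure_iUnion (disjoint_disjointed s) hdm, iUnion_disjointed]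
    congr 2
    ext x
    simp only [hs, mem_iUnion, mem_ofPred_eq]
    exact e.exists_congr_left.trans (by simp)
  · obtain ⟨n, h1, h2⟩ := mem_iUnion.1 hw
    exact ⟨e n, disjointed_subset s n h1, h2⟩

theorem edge_event (v lam : ℝ≥0) (p : unitInterval) {a b : ℝ} (ha : 0 ≤ a) (hab : a ≤ b) :
    ∃ A : Set EdgeData, MeasurableSet A ∧
      edgeLaw v lam p A = ENNReal.ofReal ((1 - Real.exp (-(lam * (b - a)))) * p) ∧
      ∀ w ∈ A, ∃ T, a < T ∧ T ≤ b ∧ (∃ j, Pt w.1.2 j T) ∧ IsOpenAt w T := by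
  set tm : (ℕ → Cell) → ℕ × ℕ → ℝ := fun c j => (j.1 : ℝ) + ((c j.1).2 j.2 : ℝ) with htm
  set L : (ℕ → Cell) → ℝ → Option (ℕ × ℕ) → Prop := fun c T o => o.elim (NoPt c 0 T)
    fun j => j.2 < (c j.1).1 ∧ 0 < tm c j ∧ tm c j ≤ T ∧ NoPt c (tm c j) T with hL
  obtain ⟨A, h1, h2, h3⟩ := select ((ppLaw v).prod (ppLaw lam))
    (fun x o => ∃ j : ℕ × ℕ, j.2 < (x.2 j.1).1 ∧ a < tm x.2 j ∧ tm x.2 j ≤ b ∧
      L x.1 (tm x.2 j) o) (fun o => by
      refine Measurable.exists fun j => (meas_valid measurable_snd j).and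
        ((measurableSet_setOfPred.1 (measurableSet_lt measurable_const
          (meas_pos measurable_snd j))).and ((measurableSet_setOfPred.1 (measurableSet_le
          (meas_pos measurable_snd j) measurable_const)).and ?_))
      rcases o with _ | i
      · exact meas_noPt measurable_fst measurable_const (meas_pos measurable_snd j)
      · exact (meas_valid measurable_fst i).and ((measurableSet_setOfPred.1 (measurableSet_lt
          measurable_const (meas_pos measurable_fst i))).and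
          ((measurableSet_setOfPred.1 (measurableSet_le (meas_pos measurable_fst i)
          (meas_pos measurable_snd j))).and
          (meas_noPt measurable_fst (meas_pos measurable_fst i) (meas_pos measurable_snd j))))) p
  refine ⟨A, h1, ?_, fun w hw => ?_⟩
  · have e : {x : (ℕ → Cell) × (ℕ → Cell) | ∃ o, ∃ j : ℕ × ℕ, j.2 < (x.2 j.1).1 ∧ a < tm x.2 j ∧
        tm x.2 j ≤ b ∧ L x.1 (tm x.2 j) o} = univ ×ˢ {c | NoPt c a b}ᶜ := by
      ext x
      simp only [mem_ofPred_eq, mem_prod, mem_univ, true_and, mem_compl_iff, noPt_iff]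
      constructor
      · rintro ⟨o, j, h4, h5, h6, -⟩ h
        exact h j h4 ⟨h5, h6⟩
      · intro h
        push Not at h
        obtain ⟨j, h4, h5, h6⟩ := h
        rcases exists_last x.1 (tm x.2 j) with h7 | ⟨i, s, ⟨h7, rfl⟩, h8⟩
        · exact ⟨none, j, h4, h5, h6, h7⟩
        · exact ⟨some i, j, h4, h5, h6, h7, h8⟩
    have hm : MeasurableSet {c : ℕ → Cell | NoPt c a b} :=
      measurableSet_setOfPred.2 (meas_noPt measurable_id measurable_const measurable_const)
    have h0 : Real.exp (-(lam * (b - a))) ≤ 1 :=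
      Real.exp_le_one_iff.2 (neg_nonpos.2 (mul_nonneg lam.2 (sub_nonneg.2 hab)))
    rw [edgeLaw, h2, e, Measure.prod_prod, measure_univ, one_mul, prob_compl_eq_one_sub hm,
      pp_void lam ha hab, ENNReal.ofReal_mul (sub_nonneg.2 h0),
      ENNReal.ofReal_sub _ (Real.exp_pos _).le, ENNReal.ofReal_one]
  · obtain ⟨o, ⟨j, h4, h5, h6, h7⟩, h8⟩ := h3 w hw
    refine ⟨_, h5, h6, ⟨j, h4, rfl⟩, ?_⟩
    rcases o with _ | i
    · exact Or.inl ⟨h7, h8⟩
    · exact Or.inr ⟨i, _, ⟨h7.1, rfl⟩, h7.2.1, h7.2.2.1, h7.2.2.2, h8⟩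

end Pool.Agent.Lib.MP_bc6f6d_pr
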