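import Pool.Agent.Lib.MP_bc6f6d_pr.Compare

set_option autoImplicit false
set_option linter.unusedSectionVars false

namespace Pool.Agent.Lib.MP_bc6f6d_pr

open MeasureTheory ProbabilityTheory Set Function
open scoped NNReal ENNReal

theorem zip_law {ι X Y : Type} [MeasurableSpace X] [MeasurableSpace Y] (μ : ι → Measure X)
    (ν : ι → Measure Y) [∀ i, IsProbabilityMeasure (μ i)] [∀ i, IsProbabilityMeasure (ν i)] :
    ((Measure.infinitePi μ).prod (Measure.infinitePi ν)).map (fun p i => (p.1 i, p.2 i))
      = Measure.infinitePi fun i => (μ i).prod (ν i) := by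
  refine Measure.eq_infinitePi _ fun s t ht => ?_
  have h1 : MeasurePreserving (s.restrict (π := fun _ => X)) (Measure.infinitePi μ)
      (Measure.pi fun i : s => μ i) := ⟨by fun_prop, Measure.infinitePi_map_restrict _⟩
  have h2 : MeasurePreserving (s.restrict (π := fun _ => Y)) (Measure.infinitePi ν)
      (Measure.pi fun i : s => ν i) := ⟨by fun_prop, Measure.infinitePi_map_restrict _⟩
  have h3 := ((measurePreserving_arrowProdEquivProdArrow X Y s (fun i => μ i)
    fun i => ν i).symm _).comp (h1.prod h2)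
  have h4 := h3.measure_preimage (s := univ.pi fun i : s => t i)
    (MeasurableSet.univ_pi fun i : s => ht i).nullMeasurableSet
  rw [Measure.pi_pi, Finset.prod_coe_sort s fun i => (μ i).prod (ν i) (t i)] at h4
  rw [Measure.map_apply (by fun_prop) (MeasurableSet.pi s.countable_toSet fun i _ => ht i), ← h4]
  congr 1
  ext p
  simp [MeasurableEquiv.arrowProdEquivProdArrow, Equiv.arrowProdEquivProdArrow]

theorem coins_reindex {ι κ : Type} (p : ι → unitInterval) {f : κ → ι} (hf : Injective f) :
    MeasurePreserving (fun (a : ι → Prop) k => a (f k)) (coins p) (coins fun k => p (f k)) :=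
  ⟨by fun_prop, Measure.map_infinitePi_infinitePi_of_inj hf⟩

theorem ber_true (p : unitInterval) :
    bernoulliMeasure True False p {z | z} = ENNReal.ofReal p := by
  rw [bernoulliMeasure_apply_of_mem_of_notMem (s := {z : Prop | z}) _ MeasurableSet.of_discrete
    trivial id, ← ENNReal.ofReal_coe_nnreal]
  rfl

theorem coins_eval {ι : Type} (p : ι → unitInterval) (i : ι) :
    coins p {a | a i} = ENNReal.ofReal (p i) := by
  have h := (measurePreserving_eval_infinitePi
    (fun i => bernoulliMeasure True False (p i)) i).measure_preimage (s := {z | z})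
    (MeasurableSet.of_discrete).nullMeasurableSet
  rw [ber_true] at h
  exact h

variable {V : Type} [Countable V]

/-- the static site-bond model. -/
noncomputable def QT (α : Sym2 V → unitInterval) (σ : unitInterval) :
    Measure ((Sym2 V → Prop) × (V → Prop)) := (coins α).prod (coins fun _ => σ)

instance (α : Sym2 V → unitInterval) (σ : unitInterval) : IsProbabilityMeasure (QT α σ) := by
  unfold QT; infer_instance

theorem dir_law (α : V → V → unitInterval) (σ : unitInterval) :
    MeasurePreserving (fun (w : (V × V → Prop) × (V → Prop)) x y => w.2 x ∧ w.1 (x, y))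
      ((coins fun p : V × V => α p.1 p.2).prod (coins fun _ => σ))
      (Measure.infinitePi fun x => nu (α x) σ) := by
  have h1 : MeasurePreserving (MeasurableEquiv.curry V V Prop) (coins fun p : V × V => α p.1 p.2)
      (Measure.infinitePi fun x => coins (α x)) :=
    ⟨MeasurableEquiv.measurable _,
      Measure.infinitePi_map_curry fun x y => bernoulliMeasure True False (α x y)⟩
  have h2 := ((MeasurePreserving.id (coins fun _ : V => σ)).prod h1).comp
    (Measure.measurePreserving_swap (μ := coins fun p : V × V => α p.1 p.2)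
      (ν := coins fun _ : V => σ))
  have h3 : MeasurePreserving (fun (p : (V → Prop) × (V → V → Prop)) i => (p.1 i, p.2 i))
      ((coins fun _ : V => σ).prod (Measure.infinitePi fun x => coins (α x)))
      (Measure.infinitePi fun x => (bernoulliMeasure True False σ).prod (coins (α x))) :=
    ⟨by fun_prop, zip_law _ _⟩
  have h4 : MeasurePreserving (fun (w : V → Prop × (V → Prop)) x y => (w x).1 ∧ (w x).2 y)
      (Measure.infinitePi fun x => (bernoulliMeasure True False σ).prod (coins (α x)))
      (Measure.infinitePi fun x => nu (α x) σ) :=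
    ⟨by fun_prop, Measure.infinitePi_map_pi _ fun _ => meas_and⟩
  exact h4.comp (h3.comp h2)

theorem exists_dir (ρ : V → ℕ) : ∃ d : Sym2 V → V × V, (∀ e, s((d e).1, (d e).2) = e) ∧
    ∀ x y, ρ x < ρ y → d s(x, y) = (x, y) := by
  have h : ∀ e : Sym2 V, ∃ p : V × V, s(p.1, p.2) = e ∧ ρ p.1 ≤ ρ p.2 := by
    intro e
    induction e using Sym2.ind with
    | h x y =>
      rcases le_total (ρ x) (ρ y) with h | h
      · exact ⟨(x, y), rfl, h⟩
      · exact ⟨(y, x), Sym2.eq_swap, h⟩
  choose d h1 h2 using h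
  refine ⟨d, h1, fun x y hxy => ?_⟩
  have a := h2 s(x, y)
  rcases Sym2.eq_iff.1 (h1 s(x, y)) with ⟨e1, e2⟩ | ⟨e1, e2⟩
  · exact Prod.ext e1 e2
  · rw [e1, e2] at a
    omega

theorem meas_allLev {Ω : Type} [MeasurableSpace Ω] {c : Ω → ℕ → V → V → Prop}
    (hc : ∀ n x y, Measurable fun ω => c ω n x y) (o : V) :
    MeasurableSet {ω | AllLev (c ω) o} := by
  have e1 : {ω | AllLev (c ω) o} = ⋂ n, ⋃ l, {ω | Hist (c ω) o n l} := by
    ext ω
    simp only [AllLev, good_iff, mem_ofPred_eq, mem_iInter, mem_iUnion]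
  rw [e1]
  exact MeasurableSet.iInter fun n => MeasurableSet.iUnion fun l => meas_hist hc o n l

theorem dir_transfer (α : Sym2 V → unitInterval) (σ : unitInterval) (o : V) :
    Measure.infinitePi (fun x => nu (fun y => α s(x, y)) σ) {N | AllLev (fun _ => N) o} =
      QT α σ {w | AllLev (cT w) o} := by
  rw [← (dir_law (fun x y => α s(x, y)) σ).measure_preimage (meas_allLev
    (c := fun (N : V → V → Prop) _ => N) (by fun_prop) o).nullMeasurableSet]
  refine transfer _ _ (c := fun (w : (V × V → Prop) × (V → Prop)) _ x y => w.2 x ∧ w.1 (x, y))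
    (by fun_prop) o fun ρ => ?_
  obtain ⟨d, h1, h2⟩ := exists_dir ρ
  have hd : Injective d := fun e e' h => by rw [← h1 e, ← h1 e', h]
  have h3 := coins_reindex (fun p : V × V => α s(p.1, p.2)) hd
  simp only [h1] at h3
  refine ⟨_, h3.prod (MeasurePreserving.id _), fun w x y hxy => ?_⟩
  simp only [cT, Prod.map_fst, Prod.map_snd, id, h2 x y hxy]

theorem und_transfer (β : Sym2 V → unitInterval) (o : V) :
    coins β {a | AllLev (fun _ x y => a s(x, y)) o} = QT β 1 {w | AllLev (cT w) o} := by
  refine transfer _ _ (c := fun (a : Sym2 V → Prop) _ x y => a s(x, y)) (by fun_prop) o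
    fun ρ => ⟨fun a => (a, fun _ => True), ⟨by fun_prop, ?_⟩, fun a x y _ => by simp [cT]⟩
  have : (coins fun _ : V => (1 : unitInterval)) = Measure.dirac fun _ => True := by
    simp [coins]
  rw [QT, this, Measure.prod_dirac]

theorem ae_fin {Ω : Type} [MeasurableSpace Ω] (P : Measure Ω) (r : Ω → V → V → Prop)
    (b : V → V → ℝ) (hb : ∀ x, Summable (b x)) (hb0 : ∀ x y, 0 ≤ b x y)
    (h : ∀ x y, P {ω | r ω x y} ≤ ENNReal.ofReal (b x y)) :
    ∀ᵐ ω ∂P, ∀ x, {y | r ω x y}.Finite := by
  rw [ae_all_iff]
  intro x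
  refine ae_finite_setOfPred_mem (s := fun y => {ω | r ω x y}) ?_
  refine ne_top_of_le_ne_top ?_ (ENNReal.tsum_le_tsum (h x))
  rw [← ENNReal.ofReal_tsum_of_nonneg (hb0 x) (hb x)]
  exact ENNReal.ofReal_ne_top

theorem mixed_ge {β α : Sym2 V → unitInterval} {σ : unitInterval} {c : ℝ} (hc : 0 ≤ c)
    (hβ : ∀ e, (β e : ℝ) ≤ (1 - c) * α e) (hβ1 : ∀ e, (β e : ℝ) < 1)
    (hσ : ∀ x (t : Finset V), 1 - (σ : ℝ) ≤ c * ∏ y ∈ t, (1 - (β s(x, y) : ℝ)))
    (hs : ∀ x, Summable fun y => (α s(x, y) : ℝ)) (o : V) :
    coins β {a | {y | Relation.ReflTransGen (fun x y => a s(x, y)) o y}.Infinite} ≤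
      QT α σ {w | AllLev (cT w) o} := by
  have hβα : ∀ e, (β e : ℝ) ≤ α e := fun e => (hβ e).trans (by nlinarith [(α e).2.1])
  have f1 := ae_fin (coins β) (fun a x y => a s(x, y)) (fun x y => α s(x, y)) hs
    (fun x y => (α _).2.1) fun x y => by
      rw [coins_eval]; exact ENNReal.ofReal_le_ofReal (hβα _)
  have f2 := ae_fin (Measure.infinitePi fun x => nu (fun y => α s(x, y)) σ) (fun N => N)
    (fun x y => α s(x, y)) hs (fun x y => (α _).2.1) fun x y => by
      rw [← (dir_law (fun x y => α s(x, y)) σ).measure_preimage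
        (measurableSet_setOfPred.2 (by fun_prop)).nullMeasurableSet,
        ← coins_eval (fun p : V × V => α s(p.1, p.2)) (x, y),
        ← (measurePreserving_fst (ν := coins fun _ : V => σ)).measure_preimage
          (measurableSet_setOfPred.2 (by fun_prop)).nullMeasurableSet]
      exact measure_mono fun w hw => hw.2
  calc _ ≤ coins β {a | AllLev (fun _ x y => a s(x, y)) o} :=
        measure_mono_ae (f1.mono fun a ha h => allLev_of_inf ha h)
    _ = _ := und_transfer β o
    _ = _ := (dir_transfer β 1 o).symm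
    _ ≤ _ := measure_mono fun N h => inf_of_allLev h
    _ ≤ _ := inf_le hc (fun x y => hβ s(x, y)) (fun x y => hβ1 s(x, y)) hσ o
    _ ≤ _ := measure_mono_ae (f2.mono fun a ha h => allLev_of_inf ha h)
    _ = _ := dir_transfer α σ o

end Pool.Agent.Lib.MP_bc6f6d_pr
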